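import Mathlib

set_option autoImplicit false

namespace Pool.Agent.Results.MP_c12391_an.EllOneSumOfEuclidean

open Filter Topology Metric

/-- The slice of `C` determined by the functional `f` and `α`. -/
def slice {X : Type} [NormedAddCommGroup X] [NormedSpace ℝ X] (C : Set X) (f : X →L[ℝ] ℝ)
    (α : ℝ) : Set X :=
  {x | x ∈ C ∧ sSup (f '' C) - α < f x}

/-- `x₀` is an almost preserved extreme point of `C`: every relatively weakly open subset
`W = U ∩ C` of `C` containing `x₀` contains a nonempty slice of `C`. -/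
def IsAPEP {X : Type} [NormedAddCommGroup X] [NormedSpace ℝ X] (C : Set X) (x₀ : X) : Prop :=
  x₀ ∈ C ∧ ∀ U : Set (WeakSpace ℝ X), IsOpen U → toWeakSpace ℝ X x₀ ∈ U →
    ∃ (f : X →L[ℝ] ℝ) (α : ℝ), 0 < α ∧ (slice C f α).Nonempty ∧
      ∀ x ∈ slice C f α, toWeakSpace ℝ X x ∈ U

/-- A weak neighbourhood of `0` contains the common kernel of finitely many functionals. -/
theorem exists_kernel {X : Type} [NormedAddCommGroup X] [NormedSpace ℝ X]
    (U : Set (WeakSpace ℝ X)) (hU : IsOpen U) (h0 : toWeakSpace ℝ X 0 ∈ U) :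
    ∃ I : Finset (X →L[ℝ] ℝ), ∀ e : X, (∀ f ∈ I, f e = 0) → toWeakSpace ℝ X e ∈ U := by
  classical
  obtain ⟨O, hO, hOU⟩ := isOpen_induced_iff.mp hU
  have hmem : ∀ e : X, toWeakSpace ℝ X e ∈ U ↔ (fun f : X →L[ℝ] ℝ => f e) ∈ O := by
    intro e
    rw [← hOU]
    rfl
  rw [isOpen_pi_iff] at hO
  obtain ⟨I, u, hu, huO⟩ := hO _ ((hmem 0).mp h0)
  refine ⟨I, fun e he => (hmem e).mpr (huO ?_)⟩
  intro f hf
  have h2 := (hu f hf).2
  simp only [map_zero] at h2
  simp only [he f hf]
  exact h2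

/-- The finite-dimensional Euclidean spaces. -/
abbrev E (n : ℕ) : Type := EuclideanSpace ℝ (Fin (n + 1))

/-- The `ℓ₁`-sum of the Euclidean spaces of all finite dimensions. -/
abbrev L : Type := lp E 1

theorem zero_apep : IsAPEP (closedBall (0 : L) 1) 0 := by
  classical
  refine ⟨mem_closedBall_self (by norm_num), ?_⟩
  intro U hU h0
  obtain ⟨I, hI⟩ := exists_kernel U hU h0
  -- a unit vector `u` in a summand killed by all functionals in `I`
  set n := I.card with hn
  let S : E n →L[ℝ] L := lp.singleContinuousLinearMap ℝ E 1 n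
  let T : E n →ₗ[ℝ] (I → ℝ) := LinearMap.pi (fun f => ((f.1.comp S : E n →L[ℝ] ℝ) : E n →ₗ[ℝ] ℝ))
  have hker : LinearMap.ker T ≠ ⊥ := by
    apply LinearMap.ker_ne_bot_of_finrank_lt
    rw [Module.finrank_fintype_fun_eq_card, finrank_euclideanSpace, Fintype.card_fin,
      Fintype.card_coe]
    omega
  obtain ⟨v, hv, hv0⟩ := (Submodule.ne_bot_iff _).mp hker
  have hvn : ‖v‖ ≠ 0 := norm_ne_zero_iff.mpr hv0
  set u : E n := ‖v‖⁻¹ • v with hu
  have hu1 : ‖u‖ = 1 := by
    rw [hu, norm_smul, norm_inv, norm_norm, inv_mul_cancel₀ hvn]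
  set e : L := lp.single 1 n u with he
  have hker' : ∀ f ∈ I, f e = 0 := by
    intro f hf
    have h1 : T v ⟨f, hf⟩ = 0 := by
      rw [LinearMap.mem_ker.mp hv]
      rfl
    have h2 : f (lp.single 1 n v) = 0 := h1
    have h3 : e = ‖v‖⁻¹ • (lp.single 1 n v : L) := by
      rw [he, hu, lp.single_smul]
    rw [h3, map_smul, h2, smul_zero]
  have heU := hI e hker'
  -- a norm ball around `e` in `U`
  have hUo : IsOpen ((toWeakSpaceCLM ℝ L) ⁻¹' U) := hU.preimage (toWeakSpaceCLM ℝ L).continuous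
  obtain ⟨r, hr, hball⟩ := Metric.isOpen_iff.mp hUo e heU
  -- the functional
  let F : L →L[ℝ] ℝ := (innerSL ℝ u).comp (lp.evalCLM ℝ E 1 n)
  have hF : ∀ x : L, F x = inner ℝ u (x n) := fun x => rfl
  have hen : e n = u := by rw [he]; exact lp.single_apply_self 1 n u
  have hFe : F e = 1 := by
    rw [hF, hen, real_inner_self_eq_norm_sq, hu1]
    norm_num
  have hen1 : ‖e‖ = 1 := by
    rw [he, lp.norm_single (by norm_num), hu1]
  have heB : e ∈ closedBall (0 : L) 1 := by
    rw [mem_closedBall_zero_iff, hen1]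
  have hFle : ∀ x ∈ closedBall (0 : L) 1, F x ≤ 1 := by
    intro x hx
    rw [mem_closedBall_zero_iff] at hx
    rw [hF]
    have h1 := real_inner_le_norm u (x n)
    rw [hu1, one_mul] at h1
    exact h1.trans ((lp.norm_apply_le_norm (by norm_num) x n).trans hx)
  have hsup : sSup (F '' closedBall (0 : L) 1) = 1 := by
    apply le_antisymm
    · refine csSup_le (Set.image_nonempty.mpr ⟨e, heB⟩) ?_
      rintro _ ⟨x, hx, rfl⟩
      exact hFle x hx
    · refine le_csSup_of_le ⟨1, ?_⟩ (Set.mem_image_of_mem F heB) hFe.ge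
      rintro _ ⟨x, hx, rfl⟩
      exact hFle x hx
  set δ : ℝ := min (r / 2) 1 with hδ
  have hδ0 : 0 < δ := lt_min (by linarith) (by norm_num)
  have hδr : δ ≤ r / 2 := min_le_left _ _
  have hδ1 : δ ≤ 1 := min_le_right _ _
  refine ⟨F, δ ^ 2 / 2, by positivity, ⟨e, heB, ?_⟩, ?_⟩
  · rw [hsup, hFe]
    have : 0 < δ ^ 2 / 2 := by positivity
    linarith
  · rintro x ⟨hx, hxF⟩
    rw [hsup, hF] at hxF
    rw [mem_closedBall_zero_iff] at hx
    refine hball (show x ∈ ball e r from ?_)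
    rw [mem_ball, dist_eq_norm]
    have h1 : ‖x - lp.single 1 n (x n)‖ = ‖x‖ - ‖x n‖ := by
      have h2 := lp.norm_compl_sum_single (p := 1) (by norm_num) x {n}
      simpa using h2
    have h2 : ‖(lp.single 1 n (x n) : L) - e‖ = ‖x n - u‖ := by
      rw [he, ← lp.single_sub, lp.norm_single (by norm_num)]
    have h3 : ‖x n‖ ≤ 1 := (lp.norm_apply_le_norm (by norm_num) x n).trans hx
    have h4 : 1 - δ ^ 2 / 2 < ‖x n‖ := by
      have := real_inner_le_norm u (x n)
      rw [hu1, one_mul] at this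
      linarith
    have h5 : ‖x n - u‖ ^ 2 ≤ δ ^ 2 := by
      rw [norm_sub_sq_real, hu1, real_inner_comm]
      nlinarith [norm_nonneg (x n)]
    have h6 : ‖x n - u‖ ≤ δ := abs_le_of_sq_le_sq' h5 hδ0.le |>.2
    have h7 : ‖x - e‖ ≤ ‖x - lp.single 1 n (x n)‖ + ‖(lp.single 1 n (x n) : L) - e‖ := by
      have := norm_add_le (x - lp.single 1 n (x n)) ((lp.single 1 n (x n) : L) - e)
      rwa [sub_add_sub_cancel] at this
    rw [h1, h2] at h7
    nlinarith

theorem zero_not_apep (n : ℕ) : ¬ IsAPEP (closedBall (0 : E n) 1) 0 := by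
  rintro ⟨_, h⟩
  -- the weak neighbourhood of `0` given by the coordinates
  let U : Set (WeakSpace ℝ (E n)) :=
    ⋂ i : Fin (n + 1), {x | |(topDualPairing ℝ (E n)).flip x (EuclideanSpace.proj i)|
      < 1 / (n + 1 : ℝ)}
  have hU : IsOpen U := by
    apply isOpen_iInter_of_finite
    intro i
    exact isOpen_lt (WeakBilin.eval_continuous _ _).abs continuous_const
  have hmem : ∀ x : E n, toWeakSpace ℝ (E n) x ∈ U ↔ ∀ i, |x i| < 1 / (n + 1 : ℝ) := by
    intro x
    rw [Set.mem_iInter]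
    rfl
  obtain ⟨f, α, hα, -, hS⟩ := h U hU ((hmem 0).mpr (fun i => by
    simp only [PiLp.zero_apply, abs_zero]
    positivity))
  -- a unit vector in the slice
  obtain ⟨w, hw1, hw⟩ : ∃ w : E n, ‖w‖ = 1 ∧ ∀ x ∈ closedBall (0 : E n) 1, f x ≤ f w := by
    set y : E n := (InnerProductSpace.toDual ℝ (E n)).symm f with hy
    have hf : ∀ x, f x = inner ℝ y x := by
      intro x
      rw [hy, InnerProductSpace.toDual_symm_apply]
    by_cases h0 : y = 0
    · obtain ⟨w, hw⟩ := exists_norm_eq (E n) (zero_le_one (α := ℝ))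
      refine ⟨w, hw, fun x _ => ?_⟩
      rw [hf, hf, h0, inner_zero_left, inner_zero_left]
    · have hyn : ‖y‖ ≠ 0 := norm_ne_zero_iff.mpr h0
      refine ⟨‖y‖⁻¹ • y, ?_, ?_⟩
      · rw [norm_smul, norm_inv, norm_norm, inv_mul_cancel₀ hyn]
      · intro x hx
        rw [mem_closedBall_zero_iff] at hx
        rw [hf, hf, inner_smul_right, real_inner_self_eq_norm_sq]
        have h1 := real_inner_le_norm y x
        have h2 : ‖y‖⁻¹ * ‖y‖ ^ 2 = ‖y‖ := by
          field_simp
        rw [h2]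
        nlinarith [norm_nonneg y]
  have hwB : w ∈ closedBall (0 : E n) 1 := by
    rw [mem_closedBall_zero_iff, hw1]
  have hwS : w ∈ slice (closedBall (0 : E n) 1) f α := by
    refine ⟨hwB, ?_⟩
    have : sSup (f '' closedBall (0 : E n) 1) ≤ f w := by
      refine csSup_le (Set.image_nonempty.mpr ⟨w, hwB⟩) ?_
      rintro _ ⟨x, hx, rfl⟩
      exact hw x hx
    linarith
  have h1 := (hmem w).mp (hS w hwS)
  have h2 : ‖w‖ ^ 2 < 1 := by
    rw [EuclideanSpace.norm_sq_eq]
    calc ∑ i, ‖w i‖ ^ 2 < ∑ _i : Fin (n + 1), (1 / (n + 1 : ℝ)) := by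
          apply Finset.sum_lt_sum_of_nonempty Finset.univ_nonempty
          intro i _
          have h3 := h1 i
          rw [Real.norm_eq_abs]
          have h4 : 1 / (n + 1 : ℝ) ≤ 1 := by
            rw [div_le_one (by positivity)]
            have : (0 : ℝ) ≤ n := Nat.cast_nonneg n
            linarith
          nlinarith [abs_nonneg (w i)]
      _ = 1 := by
          rw [Finset.sum_const, Finset.card_univ, Fintype.card_fin, nsmul_eq_mul]
          push_cast
          field_simp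
  rw [hw1] at h2
  norm_num at h2

/-- The negated form of the question. -/
theorem result :
    (IsAPEP (closedBall (0 : L) 1) 0 ∧ ∀ n, ¬ IsAPEP (closedBall (0 : E n) 1) 0) ∧
    ¬ (∀ (I : Type) [Infinite I] (F : I → Type) [∀ i, NormedAddCommGroup (F i)]
      [∀ i, NormedSpace ℝ (F i)] [∀ i, CompleteSpace (F i)],
      IsAPEP (closedBall (0 : lp F 1) 1) 0 → ∃ i, IsAPEP (closedBall (0 : F i) 1) 0) := by
  refine ⟨⟨zero_apep, zero_not_apep⟩, fun h => ?_⟩
  obtain ⟨i, hi⟩ := h ℕ E zero_apep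
  exact zero_not_apep i hi

end Pool.Agent.Results.MP_c12391_an.EllOneSumOfEuclidean
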